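import Pool.Agent.H60.ACN.Targets

/-!
MP_1c101a_gt, row LDC: local decompositions from the dimension of the limits.
-/

set_option autoImplicit false

namespace Pool.Agent.H74.ACN

open Pool.Agent.H60.ACN Pool.Agent.H60.W Filter

/-- the empty set has trivial colours -/
theorem Bcol_empty_loc {X : Type} [MetricSpace X] (c : ℕ) (r D : ℝ) :
    Bcol c r D (∅ : Set X) := by
  refine ⟨fun _ => ∅, ?_, fun i => ⟨RD.empty r, ?_⟩⟩
  · simp
  · intro P hP
    exact absurd hP (Set.notMem_empty P)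

/-- colours of a set which is approximated by a coloured space -/
theorem Bcol_of_approx {X : Type} [MetricSpace X] {K : Type} [MetricSpace K] {c : ℕ}
    {γ e s t : ℝ} {B : Set X} (φ : K → X) (ψ : X → K) (hs : 0 < s)
    (hφ : ∀ x y, |dist (φ x) (φ y) / s - dist x y| ≤ e)
    (hψ : ∀ b ∈ B, dist (φ (ψ b)) b ≤ e * s) (he : 3 * e ≤ 1 / 2) (ht : t ≤ γ - 3 * e)
    (hK : Bcol c γ (1 / 2) (Set.univ : Set K)) : Bcol c (t * s) s B := by
  obtain ⟨V, hV, hV2⟩ := hK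
  refine ⟨fun i => {Q | ∃ P ∈ V i, Q = {b | b ∈ B ∧ ψ b ∈ P}}, ?_, fun i => ⟨?_, ?_⟩⟩
  · ext b
    simp only [Set.mem_iUnion, Set.mem_sUnion]
    constructor
    · rintro ⟨i, Q, ⟨P, -, rfl⟩, hb, -⟩
      exact hb
    · intro hb
      have h1 : ψ b ∈ ⋃ i, ⋃₀ V i := by
        rw [hV]
        exact Set.mem_univ _
      simp only [Set.mem_iUnion, Set.mem_sUnion] at h1
      obtain ⟨i, P, hP, hbP⟩ := h1
      exact ⟨i, _, ⟨P, hP, rfl⟩, hb, hbP⟩
  · rintro P' ⟨P, hP, rfl⟩ Q' ⟨Q, hQ, rfl⟩ hne x ⟨hx, hxP⟩ y ⟨hy, hyQ⟩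
    have hPQ : P ≠ Q := by
      intro h
      exact hne (by rw [h])
    have h1 := (hV2 i).1 P hP Q hQ hPQ _ hxP _ hyQ
    have h2 := (abs_le.mp (hφ (ψ x) (ψ y))).1
    have h3 := hψ x hx
    have h4 := hψ y hy
    have h5 : (γ - e) * s ≤ dist (φ (ψ x)) (φ (ψ y)) := by
      rw [← le_div_iff₀ hs]
      linarith
    have h6 : dist (φ (ψ x)) (φ (ψ y)) ≤ dist (φ (ψ x)) x + dist x y + dist y (φ (ψ y)) :=
      dist_triangle4 _ _ _ _
    rw [dist_comm y] at h6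
    have h7 : t * s ≤ (γ - 3 * e) * s := mul_le_mul_of_nonneg_right ht hs.le
    nlinarith [h3, h4, h5, h6, h7]
  · rintro P' ⟨P, hP, rfl⟩ x ⟨hx, hxP⟩ y ⟨hy, hyP⟩
    have h1 := (hV2 i).2 P hP _ hxP _ hyP
    have h2 := (abs_le.mp (hφ (ψ x) (ψ y))).2
    have h3 := hψ x hx
    have h4 := hψ y hy
    have h5 : dist (φ (ψ x)) (φ (ψ y)) ≤ (1 / 2 + e) * s := by
      rw [← div_le_iff₀ hs]
      linarith
    have h6 : dist x y ≤ dist x (φ (ψ x)) + dist (φ (ψ x)) (φ (ψ y)) + dist (φ (ψ y)) y :=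
      dist_triangle4 _ _ _ _
    rw [dist_comm x (φ (ψ x))] at h6
    have h7 : 3 * e * s ≤ 1 / 2 * s := mul_le_mul_of_nonneg_right he hs.le
    nlinarith [h3, h4, h5, h6, h7]

/-- row LDC -/
theorem pf_LDC (hCOL : T_COL) (hEXT : T_EXT) : T_LDC := by
  intro X _ G k N R hCoD L hL
  by_contra hcon
  have key : ∀ j : ℕ, ∃ (s : ℝ) (B : Set X), ((j : ℝ) + 1 ≤ s) ∧ Lsd N R B ∧
      (∃ A ∈ G, B ⊆ A) ∧ (∀ x ∈ B, ∀ y ∈ B, dist x y ≤ L * s) ∧
      ¬ Bcol (k + 1) (1 / ((j : ℝ) + 1) * s) s B := by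
    intro j
    by_contra hj
    apply hcon
    have hj0 : (0 : ℝ) < (j : ℝ) + 1 := by positivity
    refine ⟨1 / ((j : ℝ) + 1), (j : ℝ) + 1, by positivity, ?_, ?_⟩
    · rw [div_le_one hj0]
      have : (0 : ℝ) ≤ j := Nat.cast_nonneg j
      linarith
    · intro s hs hs0 B hB hd
      by_contra hnB
      exact hj ⟨s, B, hs, hB.1, hB.2, hd, hnB⟩
  choose s B hs hLsd hG hdiam hnB using key
  have hs0 : ∀ j, 0 < s j := by
    intro j
    have h1 := hs j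
    have : (0 : ℝ) ≤ j := Nat.cast_nonneg j
    linarith
  have hst : Tendsto s atTop atTop := by
    apply tendsto_atTop_mono (f := fun j : ℕ => (j : ℝ)) _ tendsto_natCast_atTop_atTop
    intro j
    have := hs j
    linarith
  have hne : ∀ j, (B j).Nonempty := by
    intro j
    rw [Set.nonempty_iff_ne_empty]
    intro hE
    apply hnB j
    rw [hE]
    exact Bcol_empty_loc _ _ _
  obtain ⟨K, mK, cK, θ, φ, ψ, e, hθ, he, hall⟩ :=
    hEXT X N R L s B hst hs0 hLsd hne hdiam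
  have hAsy : Asy G K := by
    refine ⟨fun n => s (θ n), φ, hst.comp hθ.tendsto_atTop, ?_, ?_⟩
    · intro n
      obtain ⟨A, hA, hBA⟩ := hG (θ n)
      exact ⟨A, hA, fun x => hBA ((hall n).1 x)⟩
    · intro ε hε
      filter_upwards [he.eventually (eventually_lt_nhds hε)] with n hn x y
      exact ((hall n).2.1 x y).trans hn.le
  have hdim : CDim K k := hCoD K hAsy
  obtain ⟨γ, hγ, hcol⟩ := hCOL K k hdim (1 / 2) (by norm_num)
  set g := min γ (1 / 2) with hg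
  have hg0 : 0 < g := lt_min hγ (by norm_num)
  have hgγ : g ≤ γ := min_le_left _ _
  have hg2 : g ≤ 1 / 2 := min_le_right _ _
  have hev1 : ∀ᶠ n in atTop, e n < g / 16 :=
    he.eventually (eventually_lt_nhds (by positivity))
  have hev2 : ∀ᶠ n : ℕ in atTop, 2 / g ≤ (n : ℝ) :=
    (tendsto_natCast_atTop_atTop (R := ℝ)).eventually_ge_atTop _
  obtain ⟨n, hn1, hn2⟩ := (hev1.and hev2).exists
  have hθn : (n : ℝ) ≤ (θ n : ℝ) := by exact_mod_cast hθ.le_apply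
  have ht : 1 / ((θ n : ℝ) + 1) ≤ g / 2 := by
    rw [div_le_iff₀ (by positivity)]
    have h1 : 2 / g ≤ (θ n : ℝ) + 1 := by linarith
    rw [div_le_iff₀ hg0] at h1
    linarith
  apply hnB (θ n)
  exact Bcol_of_approx (φ n) (ψ n) (hs0 (θ n)) (hall n).2.1 (hall n).2.2
    (by linarith) (by linarith) hcol

end Pool.Agent.H74.ACN
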