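import Pool.Agent.H60.ACN.Targets

/-!
MP_1c101a_gt, row SPL: bounded colours from doubling colours.
-/

set_option autoImplicit false

namespace Pool.Agent.H74.ACN

open Pool.Agent.H60.ACN Pool.Agent.H60.W Filter

theorem Lsd_mono_loc {X : Type} [MetricSpace X] {N : ℕ} {R : ℝ} {A B : Set X} (h : Lsd N R B)
    (hAB : A ⊆ B) : Lsd N R A := by
  intro x s hs
  obtain ⟨c, hc⟩ := h x s hs
  exact ⟨c, fun y hy => hc ⟨hAB hy.1, hy.2⟩⟩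

/-- row SPL -/
theorem pf_SPL (hLDC : T_LDC) (hGLO : T_GLO) : T_SPL := by
  intro X _ G k hCoD N R r hr
  obtain ⟨D, hD⟩ := hGLO X {B : Set X | Lsd N R B ∧ ∃ A ∈ G, B ⊆ A} k N R (fun A hA => hA.1)
    (fun A hA B hBA => ⟨Lsd_mono_loc hA.1 hBA, by
      obtain ⟨A', hA', hAA⟩ := hA.2
      exact ⟨A', hA', hBA.trans hAA⟩⟩) (hLDC X G k N R hCoD) r hr
  refine ⟨D, fun A hA n W hW => ?_⟩
  have hV : ∀ P : Set X, Lsd N R P → ∃ V : Fin (k + 1) → Set (Set X),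
      (⋃ l, ⋃₀ V l) = P ∩ A ∧
      ∀ l, RD r (V l) ∧ ∀ Q ∈ V l, ∀ x ∈ Q, ∀ y ∈ Q, dist x y ≤ D := by
    intro P hP
    exact hD (P ∩ A) ⟨Lsd_mono_loc hP Set.inter_subset_left, A, hA, Set.inter_subset_right⟩
  choose! V hV1 hV2 using hV
  have hsub : ∀ P : Set X, Lsd N R P → ∀ l, ∀ Q ∈ V P l, ∀ x ∈ Q, x ∈ P ∩ A := by
    intro P hP l Q hQ x hx
    rw [← hV1 P hP]
    simp only [Set.mem_iUnion, Set.mem_sUnion]
    exact ⟨l, Q, hQ, hx⟩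
  refine ⟨fun j => {Q | ∃ P ∈ W (finProdFinEquiv.symm j).2,
    Q ∈ V P (finProdFinEquiv.symm j).1}, ?_, fun j => ⟨?_, ?_⟩⟩
  · ext x
    simp only [Set.mem_iUnion, Set.mem_sUnion, Set.mem_inter_iff]
    constructor
    · rintro ⟨j, Q, ⟨P, hP, hQ⟩, hx⟩
      have h1 := hsub P ((hW _).2 P hP) _ Q hQ x hx
      exact ⟨h1.2, _, P, hP, h1.1⟩
    · rintro ⟨hxA, i, P, hP, hxP⟩
      have h1 : x ∈ ⋃ l, ⋃₀ V P l := by
        rw [hV1 P ((hW i).2 P hP)]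
        exact ⟨hxP, hxA⟩
      simp only [Set.mem_iUnion, Set.mem_sUnion] at h1
      obtain ⟨l, Q, hQ, hxQ⟩ := h1
      refine ⟨finProdFinEquiv (l, i), Q, ⟨P, ?_, ?_⟩, hxQ⟩
      · rw [Equiv.symm_apply_apply]
        exact hP
      · rw [Equiv.symm_apply_apply]
        exact hQ
  · rintro Q ⟨P, hP, hQ⟩ Q' ⟨P', hP', hQ'⟩ hne x hx y hy
    have hL := (hW _).2 P hP
    have hL' := (hW _).2 P' hP'
    by_cases hPP : P = P'
    · subst hPP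
      exact (hV2 P hL _).1 Q hQ Q' hQ' hne x hx y hy
    · exact (hW _).1 P hP P' hP' hPP x (hsub P hL _ Q hQ x hx).1 y (hsub P' hL' _ Q' hQ' y hy).1
  · rintro Q ⟨P, hP, hQ⟩ x hx y hy
    exact (hV2 P ((hW _).2 P hP) _).2 Q hQ x hx y hy

end Pool.Agent.H74.ACN
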